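import Pool.Agent.W717.UR.Stm

/-! Project UR (helper717), part UR-MEET. -/

set_option autoImplicit false

namespace Pool.Agent.W315.UR

open Pool.Agent.W717.UR

lemma bb_first {G N : ℕ → ℕ} {e : ℕ → ℕ → ℤ} (k q : ℕ) (hq : q < G k) (r : ℤ) (h0 : 0 ≤ r)
    (h1 : r < hh G N k) :
    bb G N e (k + 1) ((q : ℤ) * (hh G N k + 1) + r) = bb G N e k r := by
  have hc1 : (0 : ℤ) ≤ (q : ℤ) * (hh G N k + 1) + r := by positivity
  have hc2 : (q : ℤ) * (hh G N k + 1) + r < ((G k * (hh G N k + 1) : ℕ) : ℤ) := by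
    have h2 : (q : ℤ) + 1 ≤ (G k : ℤ) := by exact_mod_cast hq
    have h3 : ((q : ℤ) + 1) * (hh G N k + 1) ≤ (G k : ℤ) * (hh G N k + 1) :=
      mul_le_mul_of_nonneg_right h2 (by positivity)
    push_cast
    nlinarith
  rw [bb, if_pos ⟨hc1, hc2⟩]
  congr 1
  have h4 : (q : ℤ) * (hh G N k + 1) + r = r + ((hh G N k + 1 : ℕ) : ℤ) * q := by
    push_cast; ring
  rw [h4, Int.add_mul_emod_self_left, Int.emod_eq_of_lt h0 (by push_cast; omega)]

lemma bb_second {G N : ℕ → ℕ} {e : ℕ → ℕ → ℤ} (k q : ℕ) (hq : q < N k) (r : ℤ) (h0 : 0 ≤ r)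
    (h1 : r < hh G N k) :
    bb G N e (k + 1) ((G k : ℤ) * (hh G N k + 1) + (q : ℤ) * hh G N k + r)
      = e k q * bb G N e k r := by
  have hh0 : (0 : ℤ) < hh G N k := lt_of_le_of_lt h0 h1
  have hq0 : (0 : ℤ) ≤ (q : ℤ) * hh G N k := by positivity
  have hc1 : ((G k * (hh G N k + 1) : ℕ) : ℤ)
      ≤ (G k : ℤ) * (hh G N k + 1) + (q : ℤ) * hh G N k + r := by
    push_cast; linarith
  have hc2 : (G k : ℤ) * (hh G N k + 1) + (q : ℤ) * hh G N k + r < (hh G N (k + 1) : ℕ) := by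
    have h2 : (q : ℤ) + 1 ≤ (N k : ℤ) := by exact_mod_cast hq
    have h3 : ((q : ℤ) + 1) * (hh G N k) ≤ (N k : ℤ) * (hh G N k) :=
      mul_le_mul_of_nonneg_right h2 hh0.le
    rw [hh]
    push_cast
    nlinarith
  rw [bb, if_neg (by rintro ⟨_, h⟩; exact absurd h (not_lt.2 hc1)), if_pos ⟨hc1, hc2⟩]
  have h4 : (G k : ℤ) * (hh G N k + 1) + (q : ℤ) * hh G N k + r
      - ((G k * (hh G N k + 1) : ℕ) : ℤ) = r + (hh G N k : ℤ) * q := by
    push_cast; ring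
  rw [h4, Int.add_mul_emod_self_left, Int.emod_eq_of_lt h0 h1,
    Int.add_mul_ediv_left _ _ hh0.ne', Int.ediv_eq_zero_of_lt h0 h1, zero_add, Int.toNat_natCast]

theorem meet (hB : S_BASIC) (hYB : S_YB) (hMin : S_MIN) : S_MEET := by
  intro G N e hP x hx t l m j
  obtain ⟨g, hg⟩ := hMin G N e hP j
  -- return times of the word of `x`
  have hA : ∀ n0 : ℕ, ∃ s : ℕ, s ≤ g ∧ ∀ i : ℕ, i < j → x (n0 + s + i) = x i := by
    intro n0
    obtain ⟨w, hw⟩ := hx (n0 + g + 2 * j + 1)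
    obtain ⟨s, hs, hs'⟩ := hg w (w + n0)
    refine ⟨s, hs, fun i hi => ?_⟩
    rw [hw (n0 + s + i) (by omega), hw i (by omega)]
    have h1 := hs' i (by rw [abs_of_nonneg (by positivity)]; exact_mod_cast hi.le)
    rw [← h1]
    congr 1
    push_cast; ring
  obtain ⟨nx, hnx⟩ := hx j
  obtain ⟨hB1, -, -⟩ := hB G N e hP
  obtain ⟨k, hk⟩ : ∃ k : ℕ, k = t.natAbs + l + nx.natAbs + j + m + g := ⟨_, rfl⟩
  obtain ⟨ha1, ha2, -⟩ := hB1 k
  have hGk := hP.hG k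
  have hN : G k + 2 ≤ N k := by
    obtain ⟨q, hq1, hq2⟩ := hP.hneg k
    by_contra h
    have := hP.hone k q (by omega)
    rw [this] at hq2
    norm_num at hq2
  set h : ℕ := hh G N k with hh_def
  set a : ℕ := aa G N k with ha_def
  have hou0 : ∀ i : ℤ, |i| ≤ l → 0 ≤ t + a + i ∧ t + a + i < h := by
    intro i hi
    rw [abs_le] at hi
    omega
  have hov0 : ∀ i : ℕ, i < j → 0 ≤ nx + a + i ∧ nx + a + i < h := by
    intro i hi
    omega
  have hYt : ∀ i : ℤ, |i| ≤ l → YY G N e (t + i) = bb G N e k (t + a + i) := by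
    intro i hi
    obtain ⟨h1, h2⟩ := hou0 i hi
    rw [← hYB G N e hP k (t + a + i) h1 h2]
    congr 1; ring
  have hxb : ∀ i : ℕ, i < j → x i = bb G N e k (nx + a + i) := by
    intro i hi
    obtain ⟨h1, h2⟩ := hov0 i hi
    rw [hnx i hi, ← hYB G N e hP k (nx + a + i) h1 h2]
    congr 1; ring
  -- the number `n0`
  have hmul : (3 : ℤ) * h ≤ (G k : ℤ) * h :=
    mul_le_mul_of_nonneg_right (by exact_mod_cast (by omega : 3 ≤ G k)) (by positivity)
  have hn0 : (0 : ℤ) ≤ (G k : ℤ) * h + nx - t - m := by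
    omega
  obtain ⟨n0, hn0'⟩ := Int.eq_ofNat_of_zero_le hn0
  obtain ⟨s, hs, hs'⟩ := hA n0
  have hsG : s ≤ G k := by omega
  obtain ⟨q, hq⟩ : ∃ q : ℕ, q + s = G k := ⟨G k - s, by omega⟩
  have hle : ∀ r : ℤ, 0 ≤ r → r < h → ∀ q' : ℕ, q' ≤ G k →
      bb G N e (k + 1) ((q' : ℤ) * (h + 1) + r) = bb G N e k r := by
    intro r hr0 hr1 q' hq'
    rcases Nat.lt_or_ge q' (G k) with h5 | h5
    · exact bb_first k q' h5 r hr0 hr1
    · have h6 : q' = G k := le_antisymm hq' h5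
      have h7 := bb_second (G := G) (N := N) (e := e) k 0 (by omega) r hr0 hr1
      rw [hP.hone k 0 (by omega), one_mul] at h7
      rw [← h7, h6]
      congr 1
      push_cast; ring
  have hsec : ∀ r : ℤ, 0 ≤ r → r < h → ∀ q' : ℕ, q' ≤ G k →
      bb G N e (k + 1) ((G k : ℤ) * (h + 1) + (q' : ℤ) * h + r) = bb G N e k r := by
    intro r hr0 hr1 q' hq'
    have h7 := bb_second (G := G) (N := N) (e := e) k q' (by omega) r hr0 hr1
    rw [hP.hone k q' hq', one_mul] at h7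
    exact h7
  have hlen : ((hh G N (k + 1) : ℕ) : ℤ) = (G k : ℤ) * (h + 1) + (N k : ℤ) * h := by
    rw [hh]; push_cast; rfl
  have hh1 : (0 : ℤ) < h := by omega
  have hNh : ((G k : ℤ) + 2) * h ≤ (N k : ℤ) * h :=
    mul_le_mul_of_nonneg_right (by exact_mod_cast hN) hh1.le
  have hqG : (q : ℤ) ≤ (G k : ℤ) := by exact_mod_cast (by omega : q ≤ G k)
  have hqh : (q : ℤ) * h ≤ (G k : ℤ) * h := mul_le_mul_of_nonneg_right hqG hh1.le
  have hqh1 : (q : ℤ) * (h + 1) ≤ (G k : ℤ) * (h + 1) :=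
    mul_le_mul_of_nonneg_right hqG (by positivity)
  have hqh0 : (0 : ℤ) ≤ (q : ℤ) * h := by positivity
  have hqh10 : (0 : ℤ) ≤ (q : ℤ) * (h + 1) := by positivity
  have hGh10 : (0 : ℤ) ≤ (G k : ℤ) * (h + 1) := by positivity
  refine ⟨-(aa G N (k + 1) : ℤ) + (q : ℤ) * (h + 1) + (t + a), ?_, n0 + s, ?_⟩
  · intro i hi
    obtain ⟨h1, h2⟩ := hou0 i hi
    rw [hYt i hi, ← hle _ h1 h2 q (by omega)]
    rw [← hYB G N e hP (k + 1) ((q : ℤ) * (h + 1) + (t + a + i)) (by linarith)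
      (by rw [hlen]; nlinarith)]
    congr 1; ring
  · intro i hi
    obtain ⟨h1, h2⟩ := hov0 i hi
    rw [hs' i hi, hxb i hi, ← hsec _ h1 h2 q (by omega)]
    rw [← hYB G N e hP (k + 1) ((G k : ℤ) * (h + 1) + (q : ℤ) * h + (nx + a + i)) (by linarith)
      (by rw [hlen]; nlinarith)]
    congr 1
    have h8 : (q : ℤ) + s = G k := by exact_mod_cast hq
    have h9 : (n0 : ℤ) = (G k : ℤ) * h + nx - t - m := hn0'.symm
    push_cast
    rw [h9, ← h8]
    ring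

end Pool.Agent.W315.UR
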